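import Pool.Agent.T9h58.NK.TR

/-! Additivity of the number of orbits for the figures at two vertices of different orbits. -/

set_option autoImplicit false

open Set
open scoped RealInnerProductSpace

namespace Pool.Agent.T9h58.NK

open Pool.Agent.T9h98.DC Pool.Agent.T9h44.NK

theorem img_single {d : ℕ} {h : E d ≃ₗᵢ[ℝ] E d} {w w' : E d} (hw : h '' {w} = {w'}) :
    h w = w' := by
  rw [image_singleton] at hw
  exact singleton_injective hw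

/-- equivalent chains through `v` have equivalent chains of the figure -/
theorem fig_equiv {d : ℕ} {H : Subgroup (E (d + 1) ≃ₗᵢ[ℝ] E (d + 1))} {v n : E (d + 1)}
    {ι : E d →ₗᵢ[ℝ] E (d + 1)} (hn : n ≠ 0) (hι : Ort n ι)
    (hfix : ∀ h ∈ H, h v = v → h n = n) {P : Set (E (d + 1))}
    {j : ℕ} {Φ Ψ : Ch P (j + 1)} {Φ' Ψ' : Ch (fig v n ι P) j} (h1 : Φ.face 0 = {v})
    (h2 : Ψ.face 0 = {v}) (h3 : ∀ i : Fin j, fig v n ι (Φ.face i.succ) = Φ'.face i)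
    (h4 : ∀ i : Fin j, fig v n ι (Ψ.face i.succ) = Ψ'.face i)
    (h5 : ∃ h ∈ H, ∀ i, h '' Φ.face i = Ψ.face i) :
    ∃ k ∈ figH H v ι, ∀ i, k '' Φ'.face i = Ψ'.face i := by
  obtain ⟨h, hh, h5⟩ := h5
  have h6 : h v = v := by
    apply img_single
    rw [← h1, h5, h2, h1]
  obtain ⟨k, hk2⟩ := exists_k hn hι (hfix h hh h6)
  refine ⟨k, ⟨h, hh, h6, hk2⟩, fun i => ?_⟩
  rw [← h3, ← fig_image h6 (hfix h hh h6) hk2, h5, h4]

/-- **N1.** -/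
theorem few_add (hSH : S_SH) {d : ℕ} {P : Set (E (d + 1))}
    {H : Subgroup (E (d + 1) ≃ₗᵢ[ℝ] E (d + 1))} {v n : E (d + 1)}
    {ι : E d →ₗᵢ[ℝ] E (d + 1)} {w m : E (d + 1)} {κ : E d →ₗᵢ[ℝ] E (d + 1)}
    (hP : IsPolytope P) (hv : Vx P v) (hsv : Sup P v n) (hn : n ≠ 0) (hι : Ort n ι)
    (hfv : ∀ h ∈ H, h v = v → h n = n) (hw : Vx P w) (hsw : Sup P w m) (hm : m ≠ 0)
    (hκ : Ort m κ) (hfw : ∀ h ∈ H, h w = w → h m = m) (hvw : ∀ h ∈ H, h v ≠ w) {a b : ℕ}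
    (hfew : Few (a + b + 1) H P) :
    Few a (figH H v ι) (fig v n ι P) ∨ Few b (figH H w κ) (fig w m κ P) := by
  classical
  by_contra hcon
  rw [not_or] at hcon
  obtain ⟨ha, hb⟩ := hcon
  unfold Few at ha hb
  push Not at ha hb
  obtain ⟨Φ', hΦ'⟩ := ha
  obtain ⟨Ψ', hΨ'⟩ := hb
  choose Φ hΦ1 hΦ2 using fun i => (hSH d P v n ι hP hv hsv hn hι d).1 (Φ' i)
  choose Ψ hΨ1 hΨ2 using fun i => (hSH d P w m κ hP hw hsw hm hκ d).1 (Ψ' i)
  let e : Fin (a + b + 1 + 1) ≃ Fin (a + 1) ⊕ Fin (b + 1) :=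
    (finCongr (by omega)).trans finSumFinEquiv.symm
  obtain ⟨i, j, hij, h, hh, hX⟩ := hfew (fun i => Sum.elim Φ Ψ (e i))
  have hij' : e i ≠ e j := fun h => hij (e.injective h)
  rcases hi : e i with i' | i' <;> rcases hj : e j with j' | j' <;>
    simp only [hi, hj, Sum.elim_inl, Sum.elim_inr] at hX
  · have hne : i' ≠ j' := by
      rintro rfl
      exact hij' (by rw [hi, hj])
    obtain ⟨k, hk, hk2⟩ := fig_equiv hn hι hfv (hΦ1 i') (hΦ1 j') (hΦ2 i') (hΦ2 j') ⟨h, hh, hX⟩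
    obtain ⟨l, hl⟩ := hΦ' i' j' hne k hk
    exact hl (hk2 l)
  · apply hvw h hh
    apply img_single
    rw [← hΦ1 i', hX 0, hΨ1]
  · apply hvw h⁻¹ (H.inv_mem hh)
    have h6 : h w = v := by
      apply img_single
      rw [← hΨ1 i', hX 0, hΦ1]
    show h.symm v = w
    rw [← h6, h.symm_apply_apply]
  · have hne : i' ≠ j' := by
      rintro rfl
      exact hij' (by rw [hi, hj])
    obtain ⟨k, hk, hk2⟩ := fig_equiv hm hκ hfw (hΨ1 i') (hΨ1 j') (hΨ2 i') (hΨ2 j') ⟨h, hh, hX⟩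
    obtain ⟨l, hl⟩ := hΨ' i' j' hne k hk
    exact hl (hk2 l)

end Pool.Agent.T9h58.NK
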