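import Pool.Agent.T9h44.NK.SpecA

/-!
# Project NK, piece TR: transfer of transitivity and of the number of orbits to the vertex figure
-/

set_option autoImplicit false

open Set
open scoped RealInnerProductSpace

namespace Pool.Agent.T9h58.NK

open Pool.Agent.T9h98.DC Pool.Agent.T9h44.NK

section
variable {d : ℕ}

theorem mem_range {n : E (d + 1)} {ι : E d →ₗᵢ[ℝ] E (d + 1)} (hn : n ≠ 0) (hι : Ort n ι)
    {y : E (d + 1)} (hy : ⟪n, y⟫ = 0) : ∃ x, ι x = y := by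
  have : Fact (Module.finrank ℝ (E (d + 1)) = d + 1) := ⟨by simp⟩
  have h1 : Module.finrank ℝ (Submodule.span ℝ {n})ᗮ = d :=
    Submodule.finrank_orthogonal_span_singleton hn
  have h2 : Module.finrank ℝ (LinearMap.range ι.toLinearMap) = d := by
    rw [LinearMap.finrank_range_of_inj ι.injective]
    simp
  have h3 : LinearMap.range ι.toLinearMap ≤ (Submodule.span ℝ {n})ᗮ := by
    rintro _ ⟨x, rfl⟩
    rw [Submodule.mem_orthogonal_singleton_iff_inner_right]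
    exact hι x
  have h4 := Submodule.eq_of_le_of_finrank_eq h3 (h2.trans h1.symm)
  have h5 : y ∈ LinearMap.range ι.toLinearMap := by
    rw [h4, Submodule.mem_orthogonal_singleton_iff_inner_right]
    exact hy
  obtain ⟨x, hx⟩ := h5
  exact ⟨x, hx⟩

/-- the isometry induced on the hyperplane -/
theorem exists_k {n : E (d + 1)} {ι : E d →ₗᵢ[ℝ] E (d + 1)} (hn : n ≠ 0) (hι : Ort n ι)
    {h : E (d + 1) ≃ₗᵢ[ℝ] E (d + 1)} (hh : h n = n) :
    ∃ k : E d ≃ₗᵢ[ℝ] E d, ∀ x, ι (k x) = h (ι x) := by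
  have hr : ∀ x, ∃ y, ι y = h (ι x) := by
    intro x
    apply mem_range hn hι
    conv_lhs => rw [← hh]
    rw [h.inner_map_map]
    exact hι x
  choose f hf using hr
  let L : E d →ₗᵢ[ℝ] E d :=
    { toFun := f
      map_add' := fun x y => by
        apply ι.injective
        rw [map_add, hf, hf, hf, map_add, map_add]
      map_smul' := fun r x => by
        apply ι.injective
        rw [RingHom.id_apply, map_smul, hf, hf, map_smul, map_smul]
      norm_map' := fun x => by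
        show ‖f x‖ = ‖x‖
        rw [← ι.norm_map, hf, h.norm_map, ι.norm_map] }
  exact ⟨L.toLinearIsometryEquiv rfl, fun x => hf x⟩

theorem fig_image {v n : E (d + 1)} {ι : E d →ₗᵢ[ℝ] E (d + 1)}
    {h : E (d + 1) ≃ₗᵢ[ℝ] E (d + 1)} {k : E d ≃ₗᵢ[ℝ] E d} (hv : h v = v) (hn : h n = n)
    (hk : ∀ x, ι (k x) = h (ι x)) (F : Set (E (d + 1))) :
    fig v n ι (h '' F) = k '' fig v n ι F := by
  have key : ∀ (x : E d) (t : ℝ), v + t • (n + ι (k x)) = h (v + t • (n + ι x)) := by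
    intro x t
    rw [map_add, map_smul, map_add, hv, hn, hk]
  ext y
  constructor
  · rintro ⟨t, ht, f, hf, hfe⟩
    refine ⟨k.symm y, ⟨t, ht, ?_⟩, k.apply_symm_apply y⟩
    have h1 := key (k.symm y) t
    rw [k.apply_symm_apply, ← hfe] at h1
    rw [← h.injective h1]
    exact hf
  · rintro ⟨x, ⟨t, ht, hx⟩, rfl⟩
    refine ⟨t, ht, ?_⟩
    rw [key]
    exact mem_image_of_mem _ hx

theorem face_image {P F : Set (E d)} (h : E d ≃ₗᵢ[ℝ] E d) (hP : h '' P = P) (hF : IsFace P F) :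
    IsFace P (h '' F) := by
  obtain ⟨hne, hex⟩ := hF
  refine ⟨hne.image _, fun _ => ?_⟩
  obtain ⟨l, hl⟩ := hex hne
  have hP' : ∀ x, x ∈ P ↔ h x ∈ P := by
    intro x
    constructor
    · intro hx; rw [← hP]; exact mem_image_of_mem _ hx
    · intro hx
      rw [← hP] at hx
      obtain ⟨y, hy, hye⟩ := hx
      rwa [h.injective hye] at hy
  refine ⟨l.comp (h.symm.toContinuousLinearEquiv : E d →L[ℝ] E d), ?_⟩
  ext y
  constructor
  · rintro ⟨x, hx, rfl⟩
    rw [hl] at hx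
    refine ⟨(hP' x).1 hx.1, fun z hz => ?_⟩
    have h1 : h.symm z ∈ P := by rw [hP', h.apply_symm_apply]; exact hz
    have h2 := hx.2 _ h1
    simpa using h2
  · rintro ⟨hy, hy2⟩
    refine ⟨h.symm y, ?_, h.apply_symm_apply y⟩
    rw [hl]
    refine ⟨by rw [hP', h.apply_symm_apply]; exact hy, fun z hz => ?_⟩
    have h2 := hy2 (h z) ((hP' z).1 hz)
    simpa using h2

theorem dm_image (h : E d ≃ₗᵢ[ℝ] E d) (F : Set (E d)) : dm (h '' F) = dm F := by
  unfold dm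
  have h1 : vectorSpan ℝ (h '' F) = (vectorSpan ℝ F).map (h.toLinearEquiv : E d →ₗ[ℝ] E d) := by
    have := (AffineMap.map_vectorSpan
      (f := (h.toLinearEquiv : E d →ₗ[ℝ] E d).toAffineMap) (s := F)).symm
    simpa using this
  rw [h1]
  exact LinearEquiv.finrank_map_eq h.toLinearEquiv _

/-- the image of a chain -/
def imCh {P : Set (E d)} {j : ℕ} (h : E d ≃ₗᵢ[ℝ] E d) (hP : h '' P = P) (Φ : Ch P j) : Ch P j where
  face i := h '' Φ.face i
  isFace i := face_image h hP (Φ.isFace i)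
  dim i := by rw [dm_image]; exact Φ.dim i
  mono _ _ hab := image_mono (Φ.mono hab)

end

theorem tr (hFA : S_FACES) (hVF : S_VF) (hSH : S_SH) (hEXT : S_EXT) : S_TR := by
  intro d P H v n ι hP hpres hv hsup hn hι hfix
  have hk : ∀ h ∈ H, h v = v → ∃ k ∈ figH H v ι, ∀ x, ι (k x) = h (ι x) := by
    intro h hh hhv
    obtain ⟨k, hk⟩ := exists_k hn hι (hfix h hh hhv)
    exact ⟨k, ⟨h, hh, hhv, hk⟩, hk⟩
  have hsh := hSH d P v n ι hP hv hsup hn hι
  have hv0 : ∀ h : E (d + 1) ≃ₗᵢ[ℝ] E (d + 1), ∀ w w', h '' {w} = {w'} → h w = w' := by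
    intro h w w' hw
    rw [image_singleton] at hw
    exact singleton_injective hw
  have hst : ∀ (j : ℕ) (Φ Ψ : Ch P (j + 1)) (Φ' Ψ' : Ch (fig v n ι P) j), Φ.face 0 = {v} →
      Ψ.face 0 = {v} → (∀ i : Fin j, fig v n ι (Φ.face i.succ) = Φ'.face i) →
      (∀ i : Fin j, fig v n ι (Ψ.face i.succ) = Ψ'.face i) →
      (∃ h ∈ H, ∀ i, h '' Φ.face i = Ψ.face i) →
      ∃ k ∈ figH H v ι, ∀ i, k '' Φ'.face i = Ψ'.face i := by
    rintro j Φ Ψ Φ' Ψ' h1 h2 h3 h4 ⟨h, hh, h5⟩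
    have h6 : h v = v := by
      apply hv0
      rw [← h1, h5, h2, h1]
    obtain ⟨k, hkm, hk2⟩ := hk h hh h6
    refine ⟨k, hkm, fun i => ?_⟩
    rw [← h3, ← fig_image h6 (hfix h hh h6) hk2, h5, h4]
  refine ⟨?_, ?_, ?_, ?_, ?_⟩
  · rintro k ⟨h, hh, h1, h2⟩
    rw [← fig_image h1 (hfix h hh h1) h2, hpres h hh]
  · intro j hPT Φ' Ψ'
    obtain ⟨Φ, h1, h2⟩ := (hsh j).1 Φ'
    obtain ⟨Ψ, h3, h4⟩ := (hsh j).1 Ψ'
    exact hst j Φ Ψ Φ' Ψ' h1 h3 h2 h4 (hPT Φ Ψ)
  · intro j htr hPT Φ Ψ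
    have hred : ∀ Φ : Ch P (j + 1), ∃ h ∈ H, ∃ Φ1 : Ch P (j + 1), Φ1.face 0 = {v} ∧
        ∀ i, h '' Φ1.face i = Φ.face i := by
      intro Φ
      obtain ⟨w, hw⟩ := (hFA (d + 1) P hP.1).2.2.2.2.2.2.1 (Φ.face 0) (Φ.isFace 0)
        (by simpa using Φ.dim 0)
      have hwv : Vx P w := by
        unfold Vx
        rw [← hw]
        exact Φ.isFace 0
      obtain ⟨h, hh, hvw⟩ := htr w hwv
      refine ⟨h, hh, imCh h⁻¹ (hpres _ (H.inv_mem hh)) Φ, ?_, fun i => ?_⟩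
      · show ⇑(h⁻¹) '' Φ.face 0 = {v}
        rw [hw, image_singleton, ← hvw]
        congr 1
        exact h.symm_apply_apply v
      · show h '' (⇑(h⁻¹) '' Φ.face i) = Φ.face i
        have hid : (⇑h ∘ ⇑(h⁻¹)) = id := by
          funext x
          exact h.apply_symm_apply x
        rw [← image_comp, hid, image_id]
    obtain ⟨a, ha, Φ1, hΦ1, hΦ2⟩ := hred Φ
    obtain ⟨b, hb, Ψ1, hΨ1, hΨ2⟩ := hred Ψ
    obtain ⟨Φ', hΦ'⟩ := (hsh j).2 Φ1 hΦ1
    obtain ⟨Ψ', hΨ'⟩ := (hsh j).2 Ψ1 hΨ1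
    obtain ⟨k, ⟨h, hh, h1, h2⟩, h3⟩ := hPT Φ' Ψ'
    have hvin : ∀ (Χ : Ch P (j + 1)), Χ.face 0 = {v} → ∀ i, v ∈ Χ.face i := by
      intro Χ hX i
      apply Χ.mono (Fin.zero_le i)
      rw [hX]
      exact mem_singleton v
    have hmain : ∀ i, h '' Φ1.face i = Ψ1.face i := by
      intro i
      refine Fin.cases ?_ (fun i => ?_) i
      · rw [hΦ1, hΨ1, image_singleton, h1]
      · have h4 : fig v n ι (h '' Φ1.face i.succ) = fig v n ι (Ψ1.face i.succ) := by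
          rw [fig_image h1 (hfix h hh h1) h2, hΦ', h3, hΨ']
        have hf1 := face_image h (hpres h hh) (Φ1.isFace i.succ)
        have hf2 := Ψ1.isFace i.succ
        have hv1 : v ∈ h '' Φ1.face i.succ := ⟨v, hvin Φ1 hΦ1 _, h1⟩
        have hv2 := hvin Ψ1 hΨ1 i.succ
        have hdet := (hVF d P v n ι hP hv hsup hn hι).2.2.2
        exact Subset.antisymm (hdet _ _ hf1 hf2 hv1 hv2 h4.subset)
          (hdet _ _ hf2 hf1 hv2 hv1 h4.symm.subset)
    refine ⟨b * h * a⁻¹, H.mul_mem (H.mul_mem hb hh) (H.inv_mem ha), fun i => ?_⟩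
    rw [← hΦ2 i, ← hΨ2 i, ← hmain i, ← image_comp, ← image_comp]
    congr 1
    funext x
    show b (h (a.symm (a x))) = b (h x)
    rw [a.symm_apply_apply]
  · intro k hfew Φ'
    choose Φ h1 h2 using fun i => (hsh d).1 (Φ' i)
    obtain ⟨i, j, hij, hh⟩ := hfew Φ
    exact ⟨i, j, hij, hst d (Φ i) (Φ j) (Φ' i) (Φ' j) (h1 i) (h1 j) (h2 i) (h2 j) hh⟩
  · rintro k hfew ⟨w, hw, hwv⟩ Φ'
    choose Φ h1 h2 using fun i => (hsh d).1 (Φ' i)
    obtain ⟨Χ, hX⟩ := hEXT d P w hP hw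
    obtain ⟨i, j, hij, h, hh, hh2⟩ := hfew (Fin.cons Χ Φ)
    induction i using Fin.cases with
    | zero =>
      induction j using Fin.cases with
      | zero => exact absurd rfl hij
      | succ j =>
        exfalso
        have h5 := hh2 0
        rw [Fin.cons_zero, Fin.cons_succ, hX, h1] at h5
        have h6 := hv0 _ _ _ h5
        apply hwv h⁻¹ (H.inv_mem hh)
        show h.symm v = w
        rw [← h6, h.symm_apply_apply]
    | succ i =>
      induction j using Fin.cases with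
      | zero =>
        exfalso
        have h5 := hh2 0
        rw [Fin.cons_zero, Fin.cons_succ, hX, h1] at h5
        exact hwv h hh (hv0 _ _ _ h5)
      | succ j =>
        have hij' : i ≠ j := fun h => hij (by rw [h])
        refine ⟨i, j, hij', hst d (Φ i) (Φ j) (Φ' i) (Φ' j) (h1 i) (h1 j) (h2 i) (h2 j)
          ⟨h, hh, fun l => ?_⟩⟩
        have h5 := hh2 l
        rw [Fin.cons_succ, Fin.cons_succ] at h5
        exact h5

end Pool.Agent.T9h58.NK
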