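import Pool.Agent.T9h44.NK.SpecA
import Pool.Agent.T9h44.NK.SpecB
import Pool.Agent.T9h58.NK.TR

/-!
# Project NK, piece STEPL
-/

set_option autoImplicit false

open Set
open scoped RealInnerProductSpace

namespace Pool.Agent.T9h58.NK

open Pool.Agent.T9h98.DC Pool.Agent.T9h44.NK

theorem adj_image {d : ℕ} {P : Set (E d)} (h : E d ≃ₗᵢ[ℝ] E d) (hP : h '' P = P) {a b : E d}
    (hab : Adj P a b) : Adj P (h a) (h b) := by
  refine ⟨h.injective.ne hab.1, ?_⟩
  have h1 : h '' segment ℝ a b = segment ℝ (h a) (h b) := by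
    have := image_segment ℝ ((h.toLinearEquiv : E d →ₗ[ℝ] E d).toAffineMap) a b
    simpa using this
  rw [← h1]
  exact face_image h hP hab.2

/-- truncation of a chain -/
def trunc {d : ℕ} {P : Set (E d)} {j k : ℕ} (hk : k ≤ j) (Φ : Ch P j) : Ch P k where
  face i := Φ.face (Fin.castLE hk i)
  isFace i := Φ.isFace _
  dim i := by simpa using Φ.dim (Fin.castLE hk i)
  mono a b hab := Φ.mono (by simpa using hab)

theorem lsq {d : ℕ} {v y : E (d + 1)} {ι : E d →ₗᵢ[ℝ] E (d + 1)} {x : E d} {l c : ℝ}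
    (hv : ‖v‖ = 1) (hy : ‖y‖ = 1) (hvy : ⟪v, y⟫ = c) (hι : Ort v ι) (hx : ‖x‖ = 1)
    (hc1 : c < 1) (hpr : Pr v (-l • v) ι y x) : l ^ 2 * (1 + c) = 1 - c := by
  obtain ⟨t, ht, e⟩ := hpr
  have hvv : ⟪v, v⟫ = 1 := by rw [real_inner_self_eq_norm_sq, hv]; norm_num
  have hyy : ⟪y, y⟫ = 1 := by rw [real_inner_self_eq_norm_sq, hy]; norm_num
  have hxx : ⟪ι x, ι x⟫ = 1 := by rw [real_inner_self_eq_norm_sq, ι.norm_map, hx]; norm_num
  have hvx : ⟪v, ι x⟫ = 0 := hι x
  have hxv : ⟪ι x, v⟫ = 0 := by rw [real_inner_comm]; exact hvx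
  have hyv : ⟪y, v⟫ = c := by rw [real_inner_comm]; exact hvy
  have e1 : ⟪v, y - v⟫ = ⟪v, t • (-l • v + ι x)⟫ := by rw [e]
  have e2 : ⟪y - v, y - v⟫ = ⟪t • (-l • v + ι x), t • (-l • v + ι x)⟫ := by rw [e]
  rw [inner_sub_right, real_inner_smul_right, inner_add_right, real_inner_smul_right, hvy, hvv,
    hvx] at e1
  rw [inner_sub_left, inner_sub_right, inner_sub_right, real_inner_smul_left,
    real_inner_smul_right, inner_add_left, inner_add_right, inner_add_right,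
    real_inner_smul_left, real_inner_smul_left, real_inner_smul_right, real_inner_smul_right,
    hyy, hyv, hvy, hvv, hxx, hvx, hxv] at e2
  have e3 : t * l = 1 - c := by linarith
  have e4 : t ^ 2 = (1 - c) * (1 + c) := by
    have : t ^ 2 * l ^ 2 = (1 - c) ^ 2 := by rw [← mul_pow, e3]
    nlinarith
  have e5 : (1 - c) * (l ^ 2 * (1 + c)) = (1 - c) * (1 - c) := by
    have : t ^ 2 * l ^ 2 = (1 - c) ^ 2 := by rw [← mul_pow, e3]
    rw [e4] at this
    linarith
  exact mul_left_cancel₀ (by linarith : (1 - c) ≠ 0) e5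

/-- the vertices of a polytope are at least `d + 1` -/
theorem card_vert (hFA : S_FACES) {d : ℕ} {P : Set (E d)} (hP : IsPolytope P)
    (s : Finset (E d)) (hs : ∀ x, x ∈ s ↔ Vx P x) : d + 1 ≤ s.card := by
  have hne : P.Nonempty := hP.2.mono interior_subset
  have hPP := ((hFA d P hP.1).2.2.2.2.1 hne).1
  have h1 := ((hFA d P hP.1).1 P hPP).2
  have h2 : {v | Vx P v ∧ v ∈ P} = (s : Set (E d)) := by
    ext x
    constructor
    · rintro ⟨h3, _⟩; exact (hs x).2 h3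
    · intro h3
      have h4 := (hs x).1 h3
      refine ⟨h4, ?_⟩
      obtain ⟨_, h5⟩ := h4
      exact h5.subset (mem_singleton x)
  rw [h2] at h1
  by_contra hcon
  push Not at hcon
  have h6 : affineSpan ℝ (s : Set (E d)) = ⊤ :=
    affineSpan_eq_top_of_nonempty_interior (by rw [← h1]; exact hP.2)
  have h7 : vectorSpan ℝ (s : Set (E d)) = ⊤ := by
    rw [← direction_affineSpan, h6, AffineSubspace.direction_top]
  have h8 : Module.finrank ℝ (vectorSpan ℝ (s : Set (E d))) = d := by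
    rw [h7, finrank_top]; simp
  rcases Nat.eq_zero_or_pos s.card with h0 | h0
  · rw [Finset.card_eq_zero] at h0
    subst h0
    rw [Finset.coe_empty, convexHull_empty] at h1
    rw [h1] at hne
    exact hne.ne_empty rfl
  · obtain ⟨k, hk⟩ : ∃ k, s.card = k + 1 := ⟨s.card - 1, by omega⟩
    have h9 : Module.finrank ℝ (vectorSpan ℝ (s : Set (E d))) ≤ k := by
      have := finrank_vectorSpan_image_finset_le ℝ (id : E d → E d) s hk
      rwa [Finset.image_id] at this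
    omega

theorem stepL (hFA : S_FACES) (hVF : S_VF) (hIO : S_IOTA) (hNB : S_NB) (hTWO : S_TWO)
    (hTR : S_TR) (hEXT : S_EXT) (hM1 : S_M1) (hM3 : S_M3) (hL1 : S_L1) (hECP : S_ECP)
    (hSS : S_SS) : S_STEPL := by
  classical
  intro n hn P H c hP hpres hUV hEC hc0 hc1 hPT
  obtain ⟨m, rfl⟩ : ∃ m, n = m + 4 := ⟨n - 4, by omega⟩
  have hcc : 0 < 1 - c ^ 2 := by nlinarith
  have hch : ∀ v, Vx P v → ∃ Φ : Ch P 3, Φ.face 0 = {v} := by
    intro v hv
    obtain ⟨Φ, hΦ⟩ := hEXT (m + 4) P v hP hv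
    exact ⟨trunc (by omega) Φ, hΦ⟩
  have htrans : ∀ v w, Vx P v → Vx P w → ∃ h ∈ H, h v = w := by
    intro v w hv hw
    obtain ⟨Φ, hΦ⟩ := hch v hv
    obtain ⟨Ψ, hΨ⟩ := hch w hw
    obtain ⟨h, hh, h1⟩ := hPT Φ Ψ
    refine ⟨h, hh, ?_⟩
    have h2 := h1 0
    rw [hΦ, hΨ, image_singleton] at h2
    exact singleton_injective h2
  have hnorm : ∀ v, Vx P v → v ≠ 0 := by
    intro v hv h0
    have := hUV v hv
    rw [h0, norm_zero] at this
    norm_num at this
  -- general `l`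
  have hbase : ∀ (v : E (m + 4 + 1)) (ι : E (m + 4) →ₗᵢ[ℝ] E (m + 4 + 1)) (l : ℝ), Vx P v →
      Ort v ι → 0 < l → UV (fig v (-l • v) ι P) →
      Sup P v (-l • v) ∧ Ort (-l • v) ι ∧ -l • v ≠ 0 ∧
      ∀ y y' x x', Adj P v y → Adj P v y' → Pr v (-l • v) ι y x → Pr v (-l • v) ι y' x' →
        ⟪x, x'⟫ * (1 - c ^ 2) = ⟪y, y'⟫ - c ^ 2 := by
    intro v ι l hv hι hl hu
    obtain ⟨l0, hl0, hs0, ho0, hn0, hu0, hrel0⟩ :=
      hM1 (m + 4) P v ι c hP hUV hEC (by linarith) hc1 hv hι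
    have hs : Sup P v (-l • v) := by
      intro y hy hyv
      have h1 := hs0 y hy hyv
      rw [real_inner_smul_right] at h1 ⊢
      have h2 : ⟪y - v, v⟫ < 0 := by
        by_contra hcon
        push Not at hcon
        have := mul_nonneg hl0.le hcon
        linarith
      have := mul_pos_of_neg_of_neg (by linarith : -l < 0) h2
      exact this
    have ho : Ort (-l • v) ι := by
      intro x
      rw [real_inner_smul_left, hι x, mul_zero]
    have hne : -l • v ≠ 0 := smul_ne_zero (by linarith) (hnorm v hv)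
    refine ⟨hs, ho, hne, ?_⟩
    intro y y' x x' hy hy' hx hx'
    have hll : l = l0 := by
      obtain ⟨x1, hx1, hp1⟩ := (hNB (m + 4) P v _ ι hP hv hs hne ho).1 y hy
      obtain ⟨x2, hx2, hp2⟩ := (hNB (m + 4) P v _ ι hP hv hs0 hn0 ho0).1 y hy
      have hyv := ((hFA _ P hP.1).2.2.2.2.2.2.2.2.1 v y hy).2.1
      have e1 := lsq (hUV v hv) (hUV y hyv) (hEC v y hy) hι (hu x1 hx1) hc1 hp1
      have e2 := lsq (hUV v hv) (hUV y hyv) (hEC v y hy) hι (hu0 x2 hx2) hc1 hp2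
      have e3 : l ^ 2 = l0 ^ 2 := by
        have : l ^ 2 * (1 + c) = l0 ^ 2 * (1 + c) := by rw [e1, e2]
        exact mul_right_cancel₀ (by linarith : (1 + c) ≠ 0) this
      exact (pow_left_inj₀ hl.le hl0.le (by norm_num)).1 e3
    subst hll
    exact hrel0 y y' x x' hy hy' hx hx'
  have hloc : ∀ v, Vx P v → ∃ (ι : E (m + 4) →ₗᵢ[ℝ] E (m + 4 + 1)) (l q : ℝ), 0 < l ∧
      Ort v ι ∧ UV (fig v (-l • v) ι P) ∧ EC q (fig v (-l • v) ι P) ∧
      IsPolytope (fig v (-l • v) ι P) := by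
    intro v hv
    obtain ⟨ι, hι, _⟩ := hIO (m + 4) v (hnorm v hv)
    obtain ⟨l, hl, hs, ho, hne, hu, -⟩ :=
      hM1 (m + 4) P v ι c hP hUV hEC (by linarith) hc1 hv hι
    have hfix : ∀ h ∈ H, h v = v → h (-l • v) = -l • v := by
      intro h _ hh
      rw [map_smul, hh]
    have hTRv := hTR (m + 4) P H v (-l • v) ι hP hpres hv hs hne ho hfix
    have hpol := (hVF (m + 4) P v (-l • v) ι hP hv hs hne ho).1
    obtain ⟨q, -, hq⟩ := hECP (m + 3) (fig v (-l • v) ι P) (figH H v ι) hpol hTRv.1 hu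
      (hTRv.2.1 2 hPT)
    exact ⟨ι, l, q, hl, hι, hu, hq, hpol⟩
  have hne : P.Nonempty := hP.2.mono interior_subset
  obtain ⟨v0, hv0⟩ := ((hFA _ P hP.1).2.2.2.2.1 hne).2
  obtain ⟨ι0, l0, q0, hl0, hι0, hu0, hq0, hpol0⟩ := hloc v0 hv0
  obtain ⟨hs0, ho0, hn0, hrel0⟩ := hbase v0 ι0 l0 hv0 hι0 hl0 hu0
  set r : ℝ := q0 * (1 - c ^ 2) + c ^ 2 with hr
  have hR : ∀ v y z T, Adj P v y → Adj P v z → y ≠ z → IsFace P T → dm T = 2 → v ∈ T → y ∈ T →
      z ∈ T → ⟪y, z⟫ = r := by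
    intro v y z T hvy hvz hyz hT hT2 hvT hyT hzT
    have hv := ((hFA _ P hP.1).2.2.2.2.2.2.2.2.1 v y hvy).1
    obtain ⟨h, hh, hhv⟩ := htrans v v0 hv hv0
    have hay := adj_image h (hpres h hh) hvy
    have haz := adj_image h (hpres h hh) hvz
    rw [hhv] at hay haz
    have hnb := hNB (m + 4) P v0 _ ι0 hP hv0 hs0 hn0 ho0
    obtain ⟨x, hx, hpx⟩ := hnb.1 (h y) hay
    obtain ⟨x', hx', hpx'⟩ := hnb.1 (h z) haz
    have hadj := (hnb.2.2.2 (h y) (h z) x x' hay haz hpx hpx').2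
      ⟨h.injective.ne hyz, h '' T, face_image h (hpres h hh) hT, by rw [dm_image]; exact hT2,
        ⟨v, hvT, hhv⟩, mem_image_of_mem _ hyT, mem_image_of_mem _ hzT⟩
    have h1 := hrel0 (h y) (h z) x x' hay haz hpx hpx'
    rw [hq0 x x' hadj, h.inner_map_map] at h1
    rw [hr]
    linarith
  -- a 2-face at each vertex
  have htwo : ∀ v, Vx P v → ∃ y z T, Adj P v y ∧ Adj P v z ∧ y ≠ z ∧ IsFace P T ∧ dm T = 2 ∧
      v ∈ T ∧ y ∈ T ∧ z ∈ T := by
    intro v hv
    obtain ⟨Φ, hΦ⟩ := hch v hv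
    have hvT : v ∈ Φ.face 2 := by
      apply Φ.mono (Fin.zero_le 2)
      rw [hΦ]
      exact mem_singleton v
    obtain ⟨y, z, h1, h2, h3, h4, h5, -⟩ := hTWO (m + 4) P (Φ.face 2) v hP hv (Φ.isFace 2)
      (by simpa using Φ.dim 2) hvT
    exact ⟨y, z, Φ.face 2, h2, h3, h1, Φ.isFace 2, by simpa using Φ.dim 2, hvT, h4, h5⟩
  set s : ℝ := Real.sqrt (2 - 2 * c) with hs
  have hs2 : s ^ 2 = 2 - 2 * c := Real.sq_sqrt (by linarith)
  have hspos : 0 < s := Real.sqrt_pos.2 (by linarith)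
  set κ : ℝ := (r - 2 * c + 1) / (2 - 2 * c) with hκ
  have hκs : κ * s ^ 2 = r - 2 * c + 1 := by
    rw [hs2, hκ, div_mul_cancel₀ _ (by linarith)]
  have hdist : ∀ a b, Adj P a b → dist a b = s := by
    intro a b hab
    have ha := ((hFA _ P hP.1).2.2.2.2.2.2.2.2.1 a b hab).1
    have hb := ((hFA _ P hP.1).2.2.2.2.2.2.2.2.1 a b hab).2.1
    rw [dist_eq_norm, hs, ← Real.sqrt_sq (norm_nonneg (a - b)), norm_sub_sq_real, hEC a b hab,
      hUV a ha, hUV b hb]
    congr 1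
    ring
  have hin : ∀ v y z, Adj P v y → Adj P v z → ⟪y, z⟫ = r → ⟪y - v, z - v⟫ = κ * s ^ 2 := by
    intro v y z hy hz hyz
    have hv := ((hFA _ P hP.1).2.2.2.2.2.2.2.2.1 v y hy).1
    rw [hκs, inner_sub_left, inner_sub_right, inner_sub_right, hyz, hEC v z hz,
      real_inner_comm, hEC v y hy, real_inner_self_eq_norm_sq, hUV v hv]
    ring
  obtain ⟨y1, z1, T1, ha1, hb1, hyz1, hT1, hT12, hv1, hy1, hz1⟩ := htwo v0 hv0
  have hm3 := hM3 (m + 4) P T1 s κ hP hT1 hT12 hspos (fun a b hab _ _ => hdist a b hab)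
    (fun v y z h1 h2 h3 h4 h5 h6 => hin v y z h1 h2 (hR v y z T1 h1 h2 h3 hT1 hT12 h4 h5 h6))
    v0 y1 z1 ha1 hb1 hyz1 hv1 hy1 hz1
  have hcase : κ = 1 / 2 ∨ κ ≤ 0 := by
    rcases hm3 with h | h | h
    · exact Or.inl h.1
    · exact Or.inr h.1.le
    · exact Or.inr (by linarith)
  rcases hcase with hk | hk
  · -- triangles
    right
    intro v ι l hv hι hl hu
    obtain ⟨hsv, hov, hnv, hrel⟩ := hbase v ι l hv hι hl hu
    intro x x' hxx'
    have hnb := hNB (m + 4) P v _ ι hP hv hsv hnv hov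
    have hpol := (hVF (m + 4) P v (-l • v) ι hP hv hsv hnv hov).1
    have hxv := ((hFA _ _ hpol.1).2.2.2.2.2.2.2.2.1 x x' hxx').1
    have hxv' := ((hFA _ _ hpol.1).2.2.2.2.2.2.2.2.1 x x' hxx').2.1
    obtain ⟨y, hy, hpy⟩ := hnb.2.1 x hxv
    obtain ⟨y', hy', hpy'⟩ := hnb.2.1 x' hxv'
    obtain ⟨hyy, T, hT, hT2, hvT, hyT, hyT'⟩ := (hnb.2.2.2 y y' x x' hy hy' hpy hpy').1 hxx'
    have h1 := hrel y y' x x' hy hy' hpy hpy'
    rw [hR v y y' T hy hy' hyy hT hT2 hvT hyT hyT'] at h1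
    have h2 : r = c := by
      rw [hk, hs2] at hκs
      linarith
    rw [h2] at h1
    rw [eq_div_iff (by linarith)]
    have h3 : (1 - c) * (⟪x, x'⟫ * (1 + c)) = (1 - c) * c := by linarith
    exact mul_left_cancel₀ (by linarith : (1 - c) ≠ 0) h3
  · -- simple polytopes
    left
    have hrle : r ≤ 2 * c - 1 := by
      have : κ * s ^ 2 ≤ 0 := mul_nonpos_of_nonpos_of_nonneg hk (sq_nonneg s)
      linarith
    have hsimp : Simp P s (fun _ => κ) := by
      have hkey : ∀ v, Vx P v → (∃ X : Finset (E (m + 4 + 1)), X.card = m + 4 + 1 ∧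
          ∀ y, y ∈ X ↔ Adj P v y) ∧
          ∀ y z, Adj P v y → Adj P v z → y ≠ z →
            ∃ T, IsFace P T ∧ dm T = 2 ∧ v ∈ T ∧ y ∈ T ∧ z ∈ T := by
        intro v hv
        obtain ⟨ι, l, q, hl, hι, hu, hq, hpol⟩ := hloc v hv
        obtain ⟨hsv, hov, hnv, hrel⟩ := hbase v ι l hv hι hl hu
        have hnb := hNB (m + 4) P v _ ι hP hv hsv hnv hov
        obtain ⟨y2, z2, T2, ha2, hb2, hyz2, hT2, hT22, hv2, hy2, hz2⟩ := htwo v hv
        obtain ⟨x2, hx2, hp2⟩ := hnb.1 y2 ha2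
        obtain ⟨x3, hx3, hp3⟩ := hnb.1 z2 hb2
        have hadj2 := (hnb.2.2.2 y2 z2 x2 x3 ha2 hb2 hp2 hp3).2 ⟨hyz2, T2, hT2, hT22, hv2, hy2, hz2⟩
        have hq2 := hrel y2 z2 x2 x3 ha2 hb2 hp2 hp3
        rw [hq x2 x3 hadj2, hR v y2 z2 T2 ha2 hb2 hyz2 hT2 hT22 hv2 hy2 hz2] at hq2
        have hqneg : q < 0 := by
          by_contra hcon
          push Not at hcon
          have h5 := mul_nonneg hcon hcc.le
          nlinarith [sq_nonneg (1 - c), mul_pos (by linarith : (0:ℝ) < 1 - c) (by linarith : (0:ℝ) < 1 - c)]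
        obtain ⟨⟨w, s', hs', hw, hfw⟩, hall⟩ := hL1 (m + 3) (fig v (-l • v) ι P) q hpol hu hq hqneg
        refine ⟨?_, ?_⟩
        · have hfin : {x | Vx (fig v (-l • v) ι P) x}.Finite := (hFA _ _ hpol.1).2.2.1
          have hle : hfin.toFinset ⊆ Finset.univ.image w := by
            intro x hx
            have hx1 : Vx (fig v (-l • v) ι P) x := by simpa using hx
            have hx2 := ((hFA _ _ hpol.1).2.2.2.1 x).1 hx1
            rw [hfw] at hx2
            have hx3 := extremePoints_convexHull_subset hx2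
            obtain ⟨i, hi⟩ := hx3
            exact Finset.mem_image.2 ⟨i, Finset.mem_univ i, hi⟩
          have hc1' : hfin.toFinset.card ≤ m + 3 + 1 + 1 := by
            refine (Finset.card_le_card hle).trans ?_
            refine Finset.card_image_le.trans ?_
            simp
          have hc2 := card_vert hFA hpol hfin.toFinset (fun x => by simp)
          choose f hf1 hf2 using hnb.2.1
          let g : E (m + 4) → E (m + 4 + 1) := fun x =>
            if hx : Vx (fig v (-l • v) ι P) x then f x hx else 0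
          have hg : ∀ x (hx : Vx (fig v (-l • v) ι P) x), g x = f x hx := fun x hx => dif_pos hx
          refine ⟨hfin.toFinset.image g, ?_, ?_⟩
          · rw [Finset.card_image_of_injOn]
            · omega
            · intro a ha b hb hab
              have ha' : Vx (fig v (-l • v) ι P) a := by simpa using ha
              have hb' : Vx (fig v (-l • v) ι P) b := by simpa using hb
              rw [hg a ha', hg b hb'] at hab
              exact (hnb.2.2.1 _ _ a b (hf1 a ha') (hf1 b hb') (hf2 a ha') (hf2 b hb')).2 hab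
          · intro y
            rw [Finset.mem_image]
            constructor
            · rintro ⟨x, hx, rfl⟩
              have hx' : Vx (fig v (-l • v) ι P) x := by simpa using hx
              rw [hg x hx']
              exact hf1 x hx'
            · intro hy
              obtain ⟨x, hx, hpx⟩ := hnb.1 y hy
              refine ⟨x, by simpa using hx, ?_⟩
              rw [hg x hx]
              exact ((hnb.2.2.1 _ _ x x (hf1 x hx) hy (hf2 x hx) hpx).1 rfl)
        · intro y z hy hz hyz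
          obtain ⟨x, hx, hpx⟩ := hnb.1 y hy
          obtain ⟨x', hx', hpx'⟩ := hnb.1 z hz
          have hxx : x ≠ x' := fun h => hyz ((hnb.2.2.1 y z x x' hy hz hpx hpx').1 h)
          exact ((hnb.2.2.2 y z x x' hy hz hpx hpx').1 (hall x x' hx hx' hxx)).2
      refine ⟨hspos, hdist, fun v hv => (hkey v hv).1, ?_⟩
      intro v y z hy hz hyz
      have hv := ((hFA _ P hP.1).2.2.2.2.2.2.2.2.1 v y hy).1
      obtain ⟨T, hT, hT2, h1, h2, h3⟩ := (hkey v hv).2 y z hy hz hyz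
      exact ⟨hin v y z hy hz (hR v y z T hy hz hyz hT hT2 h1 h2 h3), T, hT, hT2, h1, h2, h3⟩
    exact hSS m P s (fun _ => κ) hP hsimp

end Pool.Agent.T9h58.NK
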