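import Pool.Agent.T9h44.NK.Abs4

/-! (X5) of the slope 4 part of project NK. -/

set_option autoImplicit false

open Set
open scoped RealInnerProductSpace

namespace Pool.Agent.T9h58.NK

open Pool.Agent.T9h98.DC Pool.Agent.T9h44.NK

theorem x5_num (b d e g q : ℝ) (hq0 : 0 < q) (hq1 : q < 1 / 4) (hb : 101 ≤ b) (he0 : 0 ≤ e)
    (he : e ≤ b) (hd1 : b / 2 - 2 ≤ d) (hd2 : d ≤ 0.64 * b) (hg : g * (b - d) = 10 + d)
    (h : 0 ≤ 100 + 20 * (d * (q - 1) - 10 * q) + 100 * q + (1 - q) * (d + g * (10 + d)) +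
      g * (1 + q) * e) : False := by
  have hbd : 0 < b - d := by nlinarith
  have hd0 : 0 < 10 + d := by linarith
  have hg0 : 0 < g := by
    by_contra hcon
    have : g * (b - d) ≤ 0 := mul_nonpos_of_nonpos_of_nonneg (not_lt.1 hcon) hbd.le
    linarith
  have hg1 : g ≤ 2.06 := by
    by_contra hcon
    have h1 : 2.06 * (b - d) < g * (b - d) := mul_lt_mul_of_pos_right (not_le.1 hcon) hbd
    norm_num at h1 hd2
    linarith
  have h2 : g * (10 + d) ≤ 2.06 * (10 + 0.64 * b) :=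
    mul_le_mul hg1 (by linarith) hd0.le (by norm_num)
  have h3 : g * (1 + q) * e ≤ 2.06 * 1.25 * b := by
    refine mul_le_mul ?_ he he0 (by norm_num)
    exact mul_le_mul hg1 (by norm_num; linarith) (by linarith) (by norm_num)
  have hA : 100 - 19 * d + g * (10 + d) ≤ 159 - 8 * b := by
    norm_num at h2
    linarith
  have hA0 : 159 - 8 * b ≤ 0 := by linarith
  have h4 : (1 - q) * (100 - 19 * d + g * (10 + d)) ≤ 3 / 4 * (159 - 8 * b) := by
    have h5 : (1 - q) * (100 - 19 * d + g * (10 + d)) ≤ (1 - q) * (159 - 8 * b) :=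
      mul_le_mul_of_nonneg_left hA (by linarith)
    have h6 : (1 - q) * (159 - 8 * b) ≤ 3 / 4 * (159 - 8 * b) :=
      mul_le_mul_of_nonpos_right (by linarith) hA0
    linarith
  norm_num at h3
  nlinarith

open Classical in
theorem x5 : S_X5 := by
  intro m q X hq0 hq1 hX x hx z hz hb he hd1 hd2
  obtain ⟨hX1, hX2, -⟩ := hX
  have hzX : z ∈ X ∧ z ≠ x ∧ ⟪x, z⟫ = q := by
    simpa [AA] using hz
  obtain ⟨U, hU⟩ : ∃ U, U = UU q X x := ⟨_, rfl⟩
  obtain ⟨D, hD⟩ : ∃ D, D = UU q X z ∩ U := ⟨_, rfl⟩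
  have hUm : ∀ u, u ∈ U ↔ u ∈ X ∧ u ≠ x ∧ ⟪x, u⟫ ≤ 2 * q - 1 := by
    intro u
    rw [hU]
    simp [UU]
  have hdd : dd q X x z = D.card := by
    rw [hD, hU]
    rfl
  have hDU : D ⊆ U := by
    rw [hD]
    exact Finset.inter_subset_right
  rw [hdd] at hd1 hd2
  rw [← hU] at hb he hd1 hd2
  have hcard : (((U \ D).card : ℕ) : ℝ) = (U.card : ℝ) - D.card := by
    have h := Finset.card_sdiff_add_card_eq_card hDU
    have h' : (((U \ D).card : ℕ) : ℝ) + D.card = U.card := by exact_mod_cast h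
    linarith
  have hbR : (101 : ℝ) ≤ U.card := by exact_mod_cast hb
  have heR : (ee q X x : ℝ) ≤ U.card := by exact_mod_cast he.le
  have hbd : (0 : ℝ) < (U.card : ℝ) - D.card := by
    norm_num at hd2
    nlinarith
  obtain ⟨g, hg⟩ : ∃ g : ℝ, g = (10 + (D.card : ℝ)) / ((U.card : ℝ) - D.card) := ⟨_, rfl⟩
  have hg' : g * ((U.card : ℝ) - D.card) = 10 + D.card := by
    rw [hg, div_mul_cancel₀ _ hbd.ne']
  have hg0 : 0 ≤ g := by
    rw [hg]
    positivity
  obtain ⟨f, hf⟩ : ∃ f : E m → ℝ, f = fun u => if u ∈ D then (1 : ℝ) else -g := ⟨_, rfl⟩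
  have hfD : ∀ u ∈ D, f u = 1 := by
    intro u hu
    rw [hf]
    simp [hu]
  have hfF : ∀ u ∈ U \ D, f u = -g := by
    intro u hu
    rw [hf]
    simp [(Finset.mem_sdiff.1 hu).2]
  have hsumf : ∑ u ∈ U, f u = -10 := by
    rw [← Finset.sum_sdiff hDU, Finset.sum_congr rfl hfF, Finset.sum_congr rfl hfD]
    simp only [Finset.sum_const, nsmul_eq_mul]
    rw [hcard]
    linarith
  have hsumf2 : ∑ u ∈ U, f u * f u = D.card + g * (10 + D.card) := by
    rw [← Finset.sum_sdiff hDU,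
      Finset.sum_congr rfl (g := fun _ => (-g) * (-g)) (fun u hu => by rw [hfF u hu]),
      Finset.sum_congr rfl (s₁ := D) (g := fun _ => (1 : ℝ) * 1) (fun u hu => by rw [hfD u hu])]
    simp only [Finset.sum_const, nsmul_eq_mul]
    rw [hcard, ← hg']
    ring
  have hzu : ∀ u ∈ U, z ≠ u := by
    rintro u hu rfl
    have h1 := ((hUm _).1 hu).2.2
    rw [hzX.2.2] at h1
    linarith
  have hFz : ∀ u ∈ U \ D, ⟪z, u⟫ = q := by
    intro u hu
    obtain ⟨h1, h2⟩ := Finset.mem_sdiff.1 hu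
    have h3 : u ∉ UU q X z := fun h => h2 (by rw [hD]; exact Finset.mem_inter.2 ⟨h, h1⟩)
    have huX := ((hUm u).1 h1).1
    rcases hX2 z hzX.1 u huX (hzu u h1) with h4 | h4
    · exact h4
    · exact absurd (by simp [UU, huX, (hzu u h1).symm, h4]) h3
  have hDz : ∀ u ∈ D, ⟪z, u⟫ ≤ 2 * q - 1 := by
    intro u hu
    rw [hD] at hu
    have h1 := (Finset.mem_inter.1 hu).1
    simp only [UU, Finset.mem_filter] at h1
    exact h1.2.2
  have hC : ∑ u ∈ U, f u * ⟪z, u⟫ ≤ D.card * (q - 1) - 10 * q := by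
    have h1 : ∑ u ∈ U \ D, f u * ⟪z, u⟫ = -(10 + D.card) * q := by
      rw [Finset.sum_congr rfl (g := fun _ => (-g) * q)
        (fun u hu => by rw [hfF u hu, hFz u hu])]
      simp only [Finset.sum_const, nsmul_eq_mul]
      rw [hcard, ← hg']
      ring
    have h2 : ∑ u ∈ D, f u * ⟪z, u⟫ ≤ D.card * (2 * q - 1) := by
      have h3 : ∑ u ∈ D, f u * ⟪z, u⟫ ≤ ∑ _u ∈ D, (2 * q - 1) := by
        refine Finset.sum_le_sum fun u hu => ?_
        rw [hfD u hu, one_mul]
        exact hDz u hu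
      simpa only [Finset.sum_const, nsmul_eq_mul] using h3
    rw [← Finset.sum_sdiff hDU, h1]
    linarith
  have hfv : ∀ u, f u = 1 ∨ f u = -g := by
    intro u
    rw [hf]
    by_cases h : u ∈ D
    · simp [h]
    · simp [h]
  have hpair : ∀ u ∈ U, ∀ v ∈ U, f u * f v * ⟪u, v⟫ ≤ f u * f v * q +
      (if u = v then f v * f v * (1 - q) else 0) + (if v ∈ UU q X u then g * (1 + q) else 0) := by
    intro u hu v hv
    have huX := ((hUm u).1 hu).1
    have hvX := ((hUm v).1 hv).1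
    have hgq : 0 ≤ g * (1 + q) := mul_nonneg hg0 (by linarith)
    by_cases huv : u = v
    · subst huv
      have h1 : ⟪u, u⟫ = (1 : ℝ) := by
        rw [real_inner_self_eq_norm_sq, hX1 u huX]
        norm_num
      have h2 : 0 ≤ (if u ∈ UU q X u then g * (1 + q) else 0) := by
        split_ifs
        · exact hgq
        · exact le_rfl
      rw [if_pos rfl, h1]
      linarith
    · rw [if_neg huv]
      rcases hX2 u huX v hvX huv with h4 | h4
      · have h2 : 0 ≤ (if v ∈ UU q X u then g * (1 + q) else 0) := by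
          split_ifs
          · exact hgq
          · exact le_rfl
        rw [h4]
        linarith
      · have h5 : v ∈ UU q X u := by
          simp only [UU, Finset.mem_filter]
          exact ⟨hvX, fun h => huv h.symm, h4⟩
        rw [if_pos h5]
        have h6 : -1 ≤ ⟪u, v⟫ := by
          have h := abs_real_inner_le_norm u v
          rw [hX1 u huX, hX1 v hvX] at h
          have := (abs_le.1 h).1
          linarith
        rcases hfv u with h7 | h7 <;> rcases hfv v with h8 | h8 <;> rw [h7, h8]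
        · nlinarith
        · nlinarith
        · nlinarith
        · nlinarith [mul_nonneg hg0 hg0]
  have hdbl : ∑ u ∈ U, ∑ v ∈ U, f u * f v * ⟪u, v⟫ ≤
      100 * q + (1 - q) * (D.card + g * (10 + D.card)) + g * (1 + q) * ee q X x := by
    have h1 : ∑ u ∈ U, ∑ v ∈ U, f u * f v * ⟪u, v⟫ ≤ ∑ u ∈ U, ∑ v ∈ U, (f u * f v * q +
      (if u = v then f v * f v * (1 - q) else 0) +
        (if v ∈ UU q X u then g * (1 + q) else 0)) :=
      Finset.sum_le_sum fun u hu => Finset.sum_le_sum fun v hv => hpair u hu v hv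
    refine h1.trans (le_of_eq ?_)
    simp only [Finset.sum_add_distrib]
    have e1 : ∑ u ∈ U, ∑ v ∈ U, f u * f v * q = 100 * q := by
      have : ∑ u ∈ U, ∑ v ∈ U, f u * f v * q = (∑ u ∈ U, f u) * (∑ v ∈ U, f v) * q := by
        rw [Finset.sum_mul_sum, Finset.sum_mul]
        exact Finset.sum_congr rfl fun u _ => by rw [Finset.sum_mul]
      rw [this, hsumf]
      ring
    have e2 : ∑ u ∈ U, ∑ v ∈ U, (if u = v then f v * f v * (1 - q) else 0) =
        (1 - q) * (D.card + g * (10 + D.card)) := by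
      rw [← hsumf2, Finset.mul_sum]
      refine Finset.sum_congr rfl fun u hu => ?_
      rw [Finset.sum_ite_eq, if_pos hu]
      ring
    have e3 : ∑ u ∈ U, ∑ v ∈ U, (if v ∈ UU q X u then g * (1 + q) else 0) =
        g * (1 + q) * ee q X x := by
      have : (ee q X x : ℝ) = ∑ u ∈ U, ((UU q X u ∩ U).card : ℝ) := by
        rw [hU]
        unfold ee
        push_cast
        rfl
      rw [this, Finset.mul_sum]
      refine Finset.sum_congr rfl fun u hu => ?_
      rw [← Finset.sum_filter, Finset.filter_mem_eq_inter, Finset.sum_const, nsmul_eq_mul,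
        Finset.inter_comm]
      ring
    rw [e1, e2, e3]
  have hmain : 0 ≤ 100 + 20 * (∑ u ∈ U, f u * ⟪z, u⟫) +
      ∑ u ∈ U, ∑ v ∈ U, f u * f v * ⟪u, v⟫ := by
    have h0 : 0 ≤ ‖(10 : ℝ) • z + ∑ u ∈ U, f u • u‖ ^ 2 := sq_nonneg _
    rw [norm_add_sq_real, norm_smul, hX1 z hzX.1, real_inner_smul_left, inner_sum,
      ← real_inner_self_eq_norm_sq (∑ u ∈ U, f u • u), sum_inner] at h0
    have h1 : ∀ u ∈ U, ⟪f u • u, ∑ v ∈ U, f v • v⟫ = ∑ v ∈ U, f u * f v * ⟪u, v⟫ := by
      intro u _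
      rw [inner_sum]
      refine Finset.sum_congr rfl fun v _ => ?_
      rw [real_inner_smul_left, real_inner_smul_right]
      ring
    have h2 : ∀ u ∈ U, ⟪z, f u • u⟫ = f u * ⟪z, u⟫ := fun u _ => real_inner_smul_right _ _ _
    rw [Finset.sum_congr rfl h1, Finset.sum_congr rfl h2] at h0
    norm_num at h0
    linarith
  refine x5_num (U.card : ℝ) (D.card : ℝ) (ee q X x : ℝ) g q hq0 hq1 hbR (Nat.cast_nonneg _) heR
    hd1 hd2 hg' ?_
  linarith

end Pool.Agent.T9h58.NK
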